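import Pool.Agent.H182R3.AM.Upper

set_option autoImplicit false

/-!
# Transport to other types, determinism, and the counting argument
-/

namespace Pool.Agent.H182R3.AM

open Relation Classical

namespace Mach

section Transport
variable {Q A S B : Type} [Fintype S]

/-- the same machine on a larger set of states and with a renamed alphabet -/
noncomputable def map (M : Mach Q A) (e : Q ↪ S) (α : A ≃ B) : Mach S B where
  dL := fun s => Finset.univ.filter fun t => ∃ q q', e q = s ∧ e q' = t.1 ∧ (q', t.2) ∈ M.dL q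
  dR := fun s => Finset.univ.filter fun t => ∃ q q', e q = s ∧ e q' = t.1 ∧ (q', t.2) ∈ M.dR q
  dU := fun s b => Finset.univ.filter fun t =>
    ∃ q q', e q = s ∧ e q' = t.1 ∧ (q', t.2) ∈ M.dU q (α.symm b)
  dM := fun s b => Finset.univ.filter fun t =>
    ∃ q q', e q = s ∧ e q' = t.1 ∧ (q', t.2) ∈ M.dM q (α.symm b)
  init := e M.init
  fin := M.fin.map e

variable (M : Mach Q A) (e : Q ↪ S) (α : A ≃ B)

lemma map_step_iff (w : List A) (q : Q) (i j : ℕ) (c : S × ℕ × ℕ) :
    (M.map e α).Step (w.map α) (e q, i, j) c ↔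
      ∃ q' : Q, c.1 = e q' ∧ M.Step w (q, i, j) (q', c.2.1, c.2.2) := by
  constructor
  · rintro (h | h | h)
    · obtain ⟨h1, h2, h3, h4⟩ := h
      simp only [map, Finset.mem_filter, Finset.mem_univ, true_and] at h2
      obtain ⟨q1, q', e1, e2, e3⟩ := h2
      have e1 := e.injective e1
      subst e1
      exact ⟨q', e2.symm, Or.inl ⟨h1, e3, h3, h4⟩⟩
    · obtain ⟨h1, h2, h3, h4⟩ := h
      simp only [map, Finset.mem_filter, Finset.mem_univ, true_and] at h2
      obtain ⟨q1, q', e1, e2, e3⟩ := h2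
      have e1 := e.injective e1
      subst e1
      rw [List.length_map] at h1 h3
      exact ⟨q', e2.symm, Or.inr (Or.inl ⟨h1, e3, h3, h4⟩)⟩
    · obtain ⟨b, h1, h2, d, h3, h4, h5⟩ := h
      rw [List.getElem?_map] at h2
      simp only [Option.map_eq_some_iff] at h2
      obtain ⟨a, ha, rfl⟩ := h2
      simp only at h3
      split_ifs at h3 with hij
      · simp only [map, Finset.mem_filter, Finset.mem_univ, true_and,
          Equiv.symm_apply_apply] at h3
        obtain ⟨q1, q', e1, e2, e3⟩ := h3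
        have e1 := e.injective e1
        subst e1
        refine ⟨q', e2.symm, Or.inr (Or.inr ⟨a, h1, ha, d, ?_, h4, h5⟩)⟩
        simp only
        rw [if_pos hij]
        exact e3
      · simp only [map, Finset.mem_filter, Finset.mem_univ, true_and,
          Equiv.symm_apply_apply] at h3
        obtain ⟨q1, q', e1, e2, e3⟩ := h3
        have e1 := e.injective e1
        subst e1
        refine ⟨q', e2.symm, Or.inr (Or.inr ⟨a, h1, ha, d, ?_, h4, h5⟩)⟩
        simp only
        rw [if_neg hij]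
        exact e3
  · rintro ⟨q', hc, h | h | h⟩
    · obtain ⟨h1, h2, h3, h4⟩ := h
      refine Or.inl ⟨h1, ?_, h3, h4⟩
      simp only [map, Finset.mem_filter, Finset.mem_univ, true_and]
      exact ⟨q, q', rfl, hc.symm, h2⟩
    · obtain ⟨h1, h2, h3, h4⟩ := h
      refine Or.inr (Or.inl ⟨?_, ?_, ?_, h4⟩)
      · rw [List.length_map]; exact h1
      · simp only [map, Finset.mem_filter, Finset.mem_univ, true_and]
        exact ⟨q, q', rfl, hc.symm, h2⟩
      · rw [List.length_map]; exact h3
    · obtain ⟨a, h1, h2, d, h3, h4, h5⟩ := h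
      refine Or.inr (Or.inr ⟨α a, h1, ?_, d, ?_, h4, h5⟩)
      · simp only at h2 ⊢
        rw [List.getElem?_map, h2]
        rfl
      · simp only at h3 ⊢
        split_ifs at h3 ⊢ with hij
        · simp only [map, Finset.mem_filter, Finset.mem_univ, true_and, Equiv.symm_apply_apply]
          exact ⟨q, q', rfl, hc.symm, h3⟩
        · simp only [map, Finset.mem_filter, Finset.mem_univ, true_and, Equiv.symm_apply_apply]
          exact ⟨q, q', rfl, hc.symm, h3⟩

lemma map_reach (w : List A) (c : S × ℕ × ℕ)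
    (h : ReflTransGen ((M.map e α).Step (w.map α)) (e M.init, 1, 0) c) :
    ∃ q : Q, c.1 = e q ∧ ReflTransGen (M.Step w) (M.init, 1, 0) (q, c.2.1, c.2.2) := by
  induction h with
  | refl => exact ⟨M.init, rfl, ReflTransGen.refl⟩
  | @tail b c _ hs ih =>
    obtain ⟨q, hq, hr⟩ := ih
    obtain ⟨bq, bi, bj⟩ := b
    simp only at hq
    subst hq
    obtain ⟨q', hq', hs'⟩ := (M.map_step_iff e α w q bi bj c).1 hs
    exact ⟨q', hq', ReflTransGen.tail hr hs'⟩

lemma reach_map (w : List A) (c : Q × ℕ × ℕ)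
    (h : ReflTransGen (M.Step w) (M.init, 1, 0) c) :
    ReflTransGen ((M.map e α).Step (w.map α)) (e M.init, 1, 0) (e c.1, c.2.1, c.2.2) := by
  induction h with
  | refl => exact ReflTransGen.refl
  | @tail b c _ hs ih =>
    refine ReflTransGen.tail ih ?_
    exact (M.map_step_iff e α w b.1 b.2.1 b.2.2 _).2 ⟨c.1, rfl, hs⟩

theorem map_accepts (w : List A) :
    (M.map e α).Accepts (w.map α) ↔ M.Accepts w := by
  constructor
  · rintro ⟨s, i, j, hr, hi, s', hs', hs''⟩
    obtain ⟨q, hq, hr'⟩ := M.map_reach e α w _ hr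
    simp only at hq
    subst hq
    simp only [map, Finset.mem_map] at hs'
    obtain ⟨q', hq', rfl⟩ := hs'
    simp only [map, Finset.mem_filter, Finset.mem_univ, true_and] at hs''
    obtain ⟨q1, q2, e1, e2, e3⟩ := hs''
    have e1 := e.injective e1
    have e2 := e.injective e2
    subst e1 e2
    rw [List.length_map] at hi
    exact ⟨_, _, _, hr', hi, _, hq', e3⟩
  · rintro ⟨q, i, j, hr, hi, q', hq', hq''⟩
    refine ⟨_, _, _, M.reach_map e α w _ hr, by rw [List.length_map]; exact hi, e q', ?_, ?_⟩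
    · simp only [map, Finset.mem_map]
      exact ⟨q', hq', rfl⟩
    · simp only [map, Finset.mem_filter, Finset.mem_univ, true_and]
      exact ⟨q, q', rfl, rfl, hq''⟩

end Transport

section Det
variable {Q A : Type} (D : Mach Q A)

/-- determinism -/
def Det : Prop := (∀ p, (D.dL p).card ≤ 1) ∧ (∀ p, (D.dR p).card ≤ 1) ∧
  (∀ p a, (D.dU p a).card ≤ 1) ∧ (∀ p a, (D.dM p a).card ≤ 1)

lemma pstep_unique (hD : D.Det) (u : List A) (a b c : Q × ℕ × ℕ)
    (h : D.PStep u a b) (h' : D.PStep u a c) : b = c := by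
  obtain ⟨h0, h | h | h⟩ := h <;> obtain ⟨h0', h' | h' | h'⟩ := h'
  · obtain ⟨h1, h2, h3, h4⟩ := h
    obtain ⟨h1', h2', h3', h4'⟩ := h'
    have h5 := Finset.card_le_one.1 (hD.1 a.1) _ h2 _ h2'
    simp only [Prod.mk.injEq, and_true] at h5
    exact Prod.ext h5 (Prod.ext (by omega) (by omega))
  · omega
  · obtain ⟨_, h1, _⟩ := h'
    omega
  · omega
  · omega
  · omega
  · obtain ⟨_, h1, _⟩ := h
    omega
  · omega
  · obtain ⟨l, h1, h2, d, h3, h4, h5⟩ := h
    obtain ⟨l', h1', h2', d', h3', h4', h5'⟩ := h'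
    rw [h2] at h2'
    simp only [Option.some.injEq] at h2'
    subst h2'
    have h6 : (b.1, d) = (c.1, d') := by
      split_ifs at h3 h3' with hij
      · exact Finset.card_le_one.1 (hD.2.2.2 a.1 l) _ h3 _ h3'
      · exact Finset.card_le_one.1 (hD.2.2.1 a.1 l) _ h3 _ h3'
    simp only [Prod.mk.injEq] at h6
    obtain ⟨h6, rfl⟩ := h6
    exact Prod.ext h6 (Prod.ext (by rw [h4, h4']) (by omega))

lemma first_unique (hD : D.Det) (u : List A) (q q' : Q) (h : q ∈ D.First u) (h' : q' ∈ D.First u) :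
    q = q' := by
  have hterm : ∀ q (c : Q × ℕ × ℕ), ReflTransGen (D.PStep u) (q, u.length + 1, u.length) c →
      c = (q, u.length + 1, u.length) := by
    intro q c hc
    rcases ReflTransGen.cases_head hc with h | ⟨b, h, _⟩
    · exact h.symm
    · obtain ⟨h0, _⟩ := h
      simp only at h0
      omega
  rcases ReflTransGen.total_of_right_unique (fun a b c h h' => D.pstep_unique hD u a b c h h')
    h h' with h1 | h1
  · have := hterm _ _ h1
    simp only [Prod.mk.injEq, and_true] at this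
    exact this.symm
  · have := hterm _ _ h1
    simp only [Prod.mk.injEq, and_true] at this
    exact this

/-- the state at the first visit as an option -/
noncomputable def fst (u : List A) : Option Q :=
  if h : ∃ q, q ∈ D.First u then some h.choose else none

lemma fst_spec (hD : D.Det) (u : List A) (q : Q) : q ∈ D.First u ↔ D.fst u = some q := by
  unfold fst
  constructor
  · intro h
    have h' : ∃ q, q ∈ D.First u := ⟨q, h⟩
    rw [dif_pos h']
    rw [D.first_unique hD u _ _ h'.choose_spec h]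
  · intro h
    split_ifs at h with h'
    simp only [Option.some.injEq] at h
    rw [← h]
    exact h'.choose_spec

end Det

end Mach

/-- The counting argument. -/
theorem count {N m : ℕ} {B : Type} (α : Alph N ≃ B) (D : Mach (Fin m) B) (hD : D.Det)
    (h : ∀ (x : Fin N → Bool) (T : (Fin N → Bool) → Finset (Fin N)) (i : Fin N),
      D.Accepts ((word x (yT T ++ [zl i])).map α) ↔ i ∈ T x) :
    (2 ^ N) ^ (2 ^ N) ≤ (2 ^ (m * 2)) ^ (m * 2) * (m + 1) ^ (2 ^ N) := by
  set yy : ((Fin N → Bool) → Finset (Fin N)) → List B :=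
    fun T => (yT T).map (fun f => α (Sum.inr f)) with hyy
  have hw : ∀ (x : Fin N → Bool) (T : (Fin N → Bool) → Finset (Fin N)) (i : Fin N),
      (word x (yT T ++ [zl i])).map α = [α (Sum.inl x)] ++ yy T ++ [α (Sum.inr (zl i))] := by
    intro x T i
    simp [word, hyy, Function.comp_def]
  set Φ : ((Fin N → Bool) → Finset (Fin N)) →
      ((Fin m × Bool) → (Fin m × Bool) → Prop) × ((Fin N → Bool) → Option (Fin m)) :=
    fun T => (D.Beh (yy T), fun x => D.fst ([α (Sum.inl x)] ++ yy T)) with hΦ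
  have hlen : ∀ T, 1 ≤ (yy T).length := by
    intro T
    simp [hyy, yT]
  have hinj : Function.Injective Φ := by
    intro T T' hTT
    simp only [hΦ, Prod.mk.injEq] at hTT
    obtain ⟨h1, h2⟩ := hTT
    have key : ∀ (T T' : (Fin N → Bool) → Finset (Fin N)), D.Beh (yy T) = D.Beh (yy T') →
        (fun x => D.fst ([α (Sum.inl x)] ++ yy T)) = (fun x => D.fst ([α (Sum.inl x)] ++ yy T')) →
        ∀ x i, i ∈ T x → i ∈ T' x := by
      intro T T' h1 h2 x i hi
      rw [← h x T i, hw] at hi
      rw [← h x T' i, hw]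
      refine D.accepts_of_same _ _ _ _ (by simp) (hlen T) (hlen T') ?_ ?_ hi
      · intro q hq
        rw [D.fst_spec hD] at hq ⊢
        rw [← congrFun h2 x]
        exact hq
      · intro s t hst
        rw [← h1]
        exact hst
    funext x
    ext i
    exact ⟨key T T' h1 h2 x i, key T' T h1.symm h2.symm x i⟩
  have hcard := Fintype.card_le_of_injective Φ hinj
  simp only [Fintype.card_pi, Fintype.card_prod, Fintype.card_finset, Fintype.card_fin,
    Finset.prod_const, Finset.card_univ, Fintype.card_option, Fintype.card_bool,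
    Fintype.card_prop] at hcard
  exact hcard

/-- The numerical consequence. -/
theorem numeric (M m : ℕ) (hM : 5 ≤ M)
    (h : (2 ^ (2 * M)) ^ (2 ^ (2 * M)) ≤ (2 ^ (m * 2)) ^ (m * 2) * (m + 1) ^ (2 ^ (2 * M))) :
    2 ^ M ≤ m := by
  by_contra hlt
  have h1 : m + 1 ≤ 2 ^ M := by omega
  have h2 : (2 ^ (m * 2)) ^ (m * 2) ≤ 2 ^ (4 * 2 ^ (2 * M)) := by
    rw [← pow_mul]
    apply Nat.pow_le_pow_right (by norm_num)
    have : m * 2 * (m * 2) = 4 * (m * m) := by ring
    rw [this]
    apply Nat.mul_le_mul_left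
    have h3 : 2 ^ (2 * M) = 2 ^ M * 2 ^ M := by rw [two_mul, pow_add]
    rw [h3]
    exact Nat.mul_le_mul (by omega) (by omega)
  have h3 : (m + 1) ^ (2 ^ (2 * M)) ≤ 2 ^ (M * 2 ^ (2 * M)) := by
    calc (m + 1) ^ (2 ^ (2 * M)) ≤ (2 ^ M) ^ (2 ^ (2 * M)) := Nat.pow_le_pow_left h1 _
      _ = 2 ^ (M * 2 ^ (2 * M)) := by rw [← pow_mul]
  have h4 : (2 ^ (2 * M)) ^ (2 ^ (2 * M)) ≤ 2 ^ ((4 + M) * 2 ^ (2 * M)) := by
    calc _ ≤ _ := h
      _ ≤ 2 ^ (4 * 2 ^ (2 * M)) * 2 ^ (M * 2 ^ (2 * M)) := Nat.mul_le_mul h2 h3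
      _ = 2 ^ ((4 + M) * 2 ^ (2 * M)) := by rw [← pow_add]; congr 1; ring
  rw [← pow_mul] at h4
  have h5 := (Nat.pow_le_pow_iff_right (by norm_num : 1 < 2)).1 h4
  have h6 : 0 < 2 ^ (2 * M) := by positivity
  have h7 := Nat.le_of_mul_le_mul_right h5 h6
  omega

end Pool.Agent.H182R3.AM
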