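import Mathlib

set_option autoImplicit false

/-!
# Always-marking 1-limited automata: two behaviours determine everything

A machine over the state set `Q` and the alphabet `A`.  A configuration is `(q, i, j)`: state, head
position, number of visited (hence marked) cells.
-/

namespace Pool.Agent.H182R3.AM

open Relation

/-- an always-marking 1-limited automaton -/
structure Mach (Q A : Type) where
  dL : Q → Finset (Q × Bool)
  dR : Q → Finset (Q × Bool)
  dU : Q → A → Finset (Q × Bool)
  dM : Q → A → Finset (Q × Bool)
  init : Q
  fin : Finset Q

namespace Mach

variable {Q A : Type} (D : Mach Q A)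

/-- one step on the input `w` -/
def Step (w : List A) (x y : Q × ℕ × ℕ) : Prop :=
  (x.2.1 = 0 ∧ (y.1, true) ∈ D.dL x.1 ∧ y.2.1 = 1 ∧ y.2.2 = x.2.2) ∨
  (x.2.1 = w.length + 1 ∧ (y.1, false) ∈ D.dR x.1 ∧
    y.2.1 = w.length ∧ y.2.2 = x.2.2) ∨
  (∃ a : A, 1 ≤ x.2.1 ∧ w[x.2.1 - 1]? = some a ∧
    ∃ b : Bool,
      (y.1, b) ∈ (if x.2.1 ≤ x.2.2 then D.dM x.1 a else D.dU x.1 a) ∧
      y.2.1 = (if b then x.2.1 + 1 else x.2.1 - 1) ∧
      y.2.2 = max x.2.2 x.2.1)

/-- acceptance -/
def Accepts (w : List A) : Prop :=
  ∃ q : Q, ∃ i j : ℕ, ReflTransGen (D.Step w) (D.init, 1, 0) (q, i, j) ∧
    i = w.length + 1 ∧ ∃ q' ∈ D.fin, (q', true) ∈ D.dR q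

/-- steps on the part `u` before the first visit to the cell after it -/
def PStep (u : List A) (x y : Q × ℕ × ℕ) : Prop := x.2.1 ≤ u.length ∧ D.Step u x y

/-- the states at the first visit to the cell after `u` -/
def First (u : List A) : Set Q :=
  {q | ReflTransGen (D.PStep u) (D.init, 1, 0) (q, u.length + 1, u.length)}

/-- steps inside a marked segment `y`; positions are relative to the segment -/
def InStep (y : List A) (s t : Q × ℕ) : Prop :=
  1 ≤ s.2 ∧ ∃ a, y[s.2 - 1]? = some a ∧ ∃ b : Bool, (t.1, b) ∈ D.dM s.1 a ∧
    t.2 = if b then s.2 + 1 else s.2 - 1

/-- the two-way behaviour on a marked segment; `false` is the left side, `true` the right side -/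
def Beh (y : List A) (s t : Q × Bool) : Prop :=
  ReflTransGen (D.InStep y) (s.1, if s.2 then y.length else 1)
    (t.1, if t.2 then y.length + 1 else 0)

lemma lift_in (x y z : List A) {j : ℕ} (hj : x.length + y.length ≤ j) {s t : Q × ℕ}
    (h : ReflTransGen (D.InStep y) s t) :
    ReflTransGen (D.Step (x ++ y ++ z)) (s.1, x.length + s.2, j) (t.1, x.length + t.2, j) := by
  induction h with
  | refl => exact ReflTransGen.refl
  | @tail b c _ hs ih =>
    refine ReflTransGen.tail ih ?_
    obtain ⟨h1, a, ha, d, hd, he⟩ := hs
    have hlt : b.2 - 1 < y.length := by
      by_contra hcon
      rw [List.getElem?_eq_none (by omega)] at ha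
      cases ha
    right; right
    refine ⟨a, by simp only; omega, ?_, d, ?_, ?_, ?_⟩
    · simp only
      rw [List.getElem?_append_left (by simp; omega), List.getElem?_append_right (by omega)]
      rw [← ha]
      congr 1
      omega
    · simp only
      rw [if_pos (by omega)]
      exact hd
    · simp only
      rw [he]
      cases d <;> simp <;> omega
    · simp only
      omega

lemma lift_P (u z : List A) {s t : Q × ℕ × ℕ} (h : ReflTransGen (D.PStep u) s t) :
    ReflTransGen (D.Step (u ++ z)) s t := by
  induction h with
  | refl => exact ReflTransGen.refl
  | @tail b c _ hs ih =>
    refine ReflTransGen.tail ih ?_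
    obtain ⟨h0, h1 | h1 | h1⟩ := hs
    · left; exact h1
    · omega
    · obtain ⟨a, h1, h2, d, h3, h4, h5⟩ := h1
      right; right
      refine ⟨a, h1, ?_, d, h3, h4, h5⟩
      rw [List.getElem?_append_left (by omega)]
      exact h2

/-- The states at the first visit to the cell after `x ++ y` and the behaviour on the marked part
`y` determine acceptance. -/
theorem accepts_of_same (x y y' z : List A) (hx : 1 ≤ x.length) (hy : 1 ≤ y.length)
    (hy' : 1 ≤ y'.length)
    (hF : ∀ q, q ∈ D.First (x ++ y) → q ∈ D.First (x ++ y'))
    (hB : ∀ s t, D.Beh y s t → D.Beh y' s t)
    (hacc : D.Accepts (x ++ y ++ z)) : D.Accepts (x ++ y' ++ z) := by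
  -- reachability in the second word, after the first part has been visited
  set R' : Q → ℕ → ℕ → Prop := fun q i j =>
    ReflTransGen (D.Step (x ++ y' ++ z)) (D.init, 1, 0) (q, i, j) with hR'
  have key : ∀ c : Q × ℕ × ℕ, ReflTransGen (D.Step (x ++ y ++ z)) (D.init, 1, 0) c →
      (ReflTransGen (D.PStep (x ++ y)) (D.init, 1, 0) c ∧ c.2.1 ≤ x.length + y.length) ∨
      (∃ e, c.2.2 = x.length + y.length + e ∧
        ((c.2.1 ≤ x.length ∧ R' c.1 c.2.1 (x.length + y'.length + e)) ∨
         (∃ f, c.2.1 = x.length + y.length + 1 + f ∧
            R' c.1 (x.length + y'.length + 1 + f) (x.length + y'.length + e)) ∨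
         (∃ g, c.2.1 = x.length + g ∧ 1 ≤ g ∧ g ≤ y.length ∧
            ∃ p : Q, ∃ s : Bool, R' p (x.length + (if s then y'.length else 1))
              (x.length + y'.length + e) ∧
              ReflTransGen (D.InStep y) (p, if s then y.length else 1) (c.1, g)))) := by
    intro c hc
    induction hc with
    | refl =>
      left
      exact ⟨ReflTransGen.refl, by simp only; omega⟩
    | @tail b c _ hs ih =>
      rcases ih with ⟨hP, hb⟩ | ⟨e, he, ih⟩
      · -- phase 1
        have hs' : D.Step (x ++ y) b c := by
          rcases hs with h1 | h1 | h1
          · left; exact h1
          · simp only [List.length_append] at h1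
            omega
          · obtain ⟨a, h1, h2, d, h3, h4, h5⟩ := h1
            right; right
            refine ⟨a, h1, ?_, d, h3, h4, h5⟩
            rw [List.getElem?_append_left (by simp; omega)] at h2
            exact h2
        have hP' : ReflTransGen (D.PStep (x ++ y)) (D.init, 1, 0) c :=
          ReflTransGen.tail hP ⟨by simp; omega, hs'⟩
        by_cases hc1 : c.2.1 ≤ x.length + y.length
        · left; exact ⟨hP', hc1⟩
        · right
          -- arrival at the cell after `x ++ y`
          have hinv : ∀ c : Q × ℕ × ℕ, ReflTransGen (D.PStep (x ++ y)) (D.init, 1, 0) c →
              c.2.2 ≤ x.length + y.length := by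
            intro c hc
            induction hc with
            | refl => simp
            | @tail b c _ hs ih =>
              obtain ⟨h0, h1 | h1 | h1⟩ := hs
              · omega
              · simp only [List.length_append] at h0 h1; omega
              · obtain ⟨a, h1, h2, d, h3, h4, h5⟩ := h1
                simp only [List.length_append] at h0
                omega
          have hcj := hinv c hP'
          have hcc : c.2.1 = x.length + y.length + 1 ∧ c.2.2 = x.length + y.length := by
            rcases hs' with h1 | h1 | h1
            · omega
            · simp only [List.length_append] at h1; omega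
            · obtain ⟨a, h1, h2, d, h3, h4, h5⟩ := h1
              cases d
              · simp at h4; omega
              · simp at h4; omega
          refine ⟨0, by omega, Or.inr (Or.inl ⟨0, by omega, ?_⟩)⟩
          have hq : c.1 ∈ D.First (x ++ y) := by
            have : c = (c.1, (x ++ y).length + 1, (x ++ y).length) := by
              ext
              · rfl
              · simp [hcc.1]
              · simp [hcc.2]
            rw [this] at hP'
            exact hP'
          have hq' := hF _ hq
          have h6 := D.lift_P (x ++ y') z hq'
          simpa [hR'] using h6
      · -- phase 2
        right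
        rcases ih with ⟨hb, hR⟩ | ⟨f, hf, hR⟩ | ⟨g, hg, hg1, hg2, p, s, hR, hI⟩
        · -- left part
          rcases hs with h1 | h1 | h1
          · refine ⟨e, by omega, Or.inl ⟨by omega, ?_⟩⟩
            refine ReflTransGen.tail hR ?_
            left
            exact ⟨h1.1, h1.2.1, h1.2.2.1, rfl⟩
          · simp only [List.length_append] at h1
            omega
          · obtain ⟨a, h1, h2, d, h3, h4, h5⟩ := h1
            rw [if_pos (by omega)] at h3
            rw [List.append_assoc, List.getElem?_append_left (by omega)] at h2
            have hstep : D.Step (x ++ y' ++ z) (b.1, b.2.1, x.length + y'.length + e)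
                (c.1, c.2.1, x.length + y'.length + e) := by
              right; right
              refine ⟨a, h1, ?_, d, ?_, h4, ?_⟩
              · simp only
                rw [List.append_assoc, List.getElem?_append_left (by omega)]
                exact h2
              · simp only
                rw [if_pos (by omega)]
                exact h3
              · simp only
                omega
            have hR2 := ReflTransGen.tail hR hstep
            by_cases hc : c.2.1 ≤ x.length
            · exact ⟨e, by omega, Or.inl ⟨hc, hR2⟩⟩
            · have hc1 : c.2.1 = x.length + 1 := by
                cases d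
                · simp at h4; omega
                · simp at h4; omega
              refine ⟨e, by omega, Or.inr (Or.inr ⟨1, hc1, le_refl _, hy, c.1, false, ?_,
                ReflTransGen.refl⟩)⟩
              rw [hc1] at hR2
              exact hR2
        · -- right part
          rcases hs with h1 | h1 | h1
          · omega
          · simp only [List.length_append] at h1
            have hstep : D.Step (x ++ y' ++ z)
                (b.1, x.length + y'.length + 1 + f, x.length + y'.length + e)
                (c.1, x.length + y'.length + f, x.length + y'.length + e) := by
              right; left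
              refine ⟨?_, h1.2.1, ?_, rfl⟩
              · simp only [List.length_append]; omega
              · simp only [List.length_append]; omega
            have hR2 := ReflTransGen.tail hR hstep
            by_cases hf0 : f = 0
            · refine ⟨e, by omega, Or.inr (Or.inr ⟨y.length, by omega, hy, le_refl _, c.1, true,
                ?_, ReflTransGen.refl⟩)⟩
              subst hf0
              exact hR2
            · refine ⟨e, by omega, Or.inr (Or.inl ⟨f - 1, by omega, ?_⟩)⟩
              have : x.length + y'.length + 1 + (f - 1) = x.length + y'.length + f := by omega
              rw [this]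
              exact hR2
          · obtain ⟨a, h1, h2, d, h3, h4, h5⟩ := h1
            have h2' : (x ++ y' ++ z)[x.length + y'.length + 1 + f - 1]? = some a := by
              rw [List.getElem?_append_right (by simp only [List.length_append]; omega)] at h2 ⊢
              rw [← h2]
              congr 1
              simp only [List.length_append]
              omega
            have hmax : ∃ e', max (x.length + y.length + e) (x.length + y.length + 1 + f) =
                x.length + y.length + e' ∧
                max (x.length + y'.length + e) (x.length + y'.length + 1 + f) =
                x.length + y'.length + e' := ⟨max e (1 + f), by omega, by omega⟩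
            obtain ⟨e', he1, he2⟩ := hmax
            have hstep : D.Step (x ++ y' ++ z)
                (b.1, x.length + y'.length + 1 + f, x.length + y'.length + e)
                (c.1, (if d then x.length + y'.length + 1 + f + 1 else
                  x.length + y'.length + 1 + f - 1), x.length + y'.length + e') := by
              right; right
              refine ⟨a, by simp only; omega, h2', d, ?_, rfl, he2.symm⟩
              simp only
              by_cases hfe : 1 + f ≤ e
              · rw [if_pos (by omega)] at h3 ⊢
                exact h3
              · rw [if_neg (by omega)] at h3 ⊢
                exact h3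
            have hR2 := ReflTransGen.tail hR hstep
            have hce : c.2.2 = x.length + y.length + e' := by
              rw [h5, he, hf]; exact he1
            cases d
            · simp only [Bool.false_eq_true, if_false] at h4 hR2
              by_cases hf0 : f = 0
              · refine ⟨e', hce, Or.inr (Or.inr ⟨y.length, by omega, hy, le_refl _, c.1, true,
                  ?_, ReflTransGen.refl⟩)⟩
                subst hf0
                exact hR2
              · refine ⟨e', hce, Or.inr (Or.inl ⟨f - 1, by omega, ?_⟩)⟩
                have : x.length + y'.length + 1 + (f - 1) = x.length + y'.length + 1 + f - 1 := by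
                  omega
                rw [this]
                exact hR2
            · simp only [if_true] at h4 hR2
              exact ⟨e', hce, Or.inr (Or.inl ⟨f + 1, by omega, hR2⟩)⟩
        · -- middle part
          rcases hs with h1 | h1 | h1
          · omega
          · simp only [List.length_append] at h1
            omega
          · obtain ⟨a, h1, h2, d, h3, h4, h5⟩ := h1
            rw [if_pos (by omega)] at h3
            have h2' : y[g - 1]? = some a := by
              rw [List.getElem?_append_left (by simp; omega),
                List.getElem?_append_right (by omega)] at h2
              rw [← h2]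
              congr 1
              omega
            have hin : D.InStep y (b.1, g) (c.1, if d then g + 1 else g - 1) :=
              ⟨hg1, a, h2', d, h3, rfl⟩
            have hI2 := ReflTransGen.tail hI hin
            have hce : c.2.2 = x.length + y.length + e := by omega
            have hexit : ∀ t : Bool, (if d then g + 1 else g - 1) =
                (if t then y.length + 1 else 0) →
                R' c.1 (x.length + if t then y'.length + 1 else 0) (x.length + y'.length + e) := by
              intro t ht
              have hbeh : D.Beh y (p, s) (c.1, t) := by
                unfold Beh
                simp only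
                rw [← ht]
                exact hI2
              have h7 := D.lift_in x y' z (j := x.length + y'.length + e) (by omega) (hB _ _ hbeh)
              exact ReflTransGen.trans hR h7
            cases d
            · simp only [Bool.false_eq_true, if_false] at h4 hI2 hexit
              by_cases hgg : g = 1
              · refine ⟨e, hce, Or.inl ⟨by omega, ?_⟩⟩
                have h8 := hexit false (by simp; omega)
                have h9 : c.2.1 = x.length + 0 := by omega
                rw [h9]
                exact h8
              · exact ⟨e, hce, Or.inr (Or.inr ⟨g - 1, by omega, by omega, by omega, p, s, hR,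
                  hI2⟩)⟩
            · simp only [if_true] at h4 hI2 hexit
              by_cases hgg : g = y.length
              · refine ⟨e, hce, Or.inr (Or.inl ⟨0, by omega, ?_⟩)⟩
                have h8 := hexit true (by simp; omega)
                simp only [if_true] at h8
                exact h8
              · exact ⟨e, hce, Or.inr (Or.inr ⟨g + 1, by omega, by omega, by omega, p, s, hR,
                  hI2⟩)⟩
  obtain ⟨q, i, j, hr, hi, q', hq', hq''⟩ := hacc
  rcases key _ hr with ⟨_, h1⟩ | ⟨e, he, h1 | ⟨f, hf, h1⟩ | ⟨g, hg, hg1, hg2, _⟩⟩
  · simp only [List.length_append] at h1 hi; omega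
  · simp only [List.length_append] at h1 hi; omega
  · simp only [List.length_append] at hf hi
    refine ⟨q, _, _, h1, ?_, q', hq', hq''⟩
    simp only [List.length_append]
    omega
  · simp only [List.length_append] at hg hi; omega

end Mach

end Pool.Agent.H182R3.AM
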