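import Pool.Agent.H182R3.AM.Lower

set_option autoImplicit false

/-!
# The witness machine

States: `none` (the spawner), `some (inl (j, b))` (a test token which has to check that the bit `j`
of the first letter is `b`), `some (inr i)` (result states); the second component is the mode
(`true`: moving right, `false`: moving left).
-/

namespace Pool.Agent.H182R3.AM

open Relation Classical

/-- the frontier states -/
abbrev Q0 (N : ℕ) : Type := Option ((Fin N × Bool) ⊕ Fin N)

/-- the alphabet: bit vectors and relations on the frontier states -/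
abbrev Alph (N : ℕ) : Type := (Fin N → Bool) ⊕ (Q0 N → Q0 N → Prop)

/-- the test made at the first letter -/
def Pass {N : ℕ} (x : Fin N → Bool) : Q0 N → Prop
  | some (Sum.inl (j, b)) => x j = b
  | _ => True

/-- the witness machine -/
noncomputable def wit (N : ℕ) : Mach (Q0 N × Bool) (Alph N) where
  dL := fun _ => ∅
  dR := fun s => if s = (none, true) then {(s, true)} else ∅
  dU := fun s a => match a with
    | Sum.inl _ => {((s.1, true), true)}
    | Sum.inr f => Finset.univ.filter fun t => f s.1 t.1.1 ∧ t.1.2 = false ∧ t.2 = false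
  dM := fun s a => match a with
    | Sum.inl x => if Pass x s.1 then {((s.1, true), true)} else ∅
    | Sum.inr _ => {((s.1, s.2), s.2)}
  init := (none, true)
  fin := {(none, true)}

/-- the effect of one letter on the set of the frontier states -/
def Post {N : ℕ} (x : Fin N → Bool) (R : Set (Q0 N)) (f : Q0 N → Q0 N → Prop) : Set (Q0 N) :=
  {q' | (∃ q ∈ R, f q q') ∧ Pass x q'}

/-- the set of the frontier states after `y` -/
def RR {N : ℕ} (x : Fin N → Bool) (y : List (Q0 N → Q0 N → Prop)) : Set (Q0 N) :=
  y.foldl (Post x) {none}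

lemma RR_succ {N : ℕ} (x : Fin N → Bool) (y : List (Q0 N → Q0 N → Prop)) (j : ℕ)
    (f : Q0 N → Q0 N → Prop) (hf : y[j]? = some f) :
    RR x (y.take (j + 1)) = Post x (RR x (y.take j)) f := by
  have : y.take (j + 1) = y.take j ++ [f] := by
    rw [List.take_add_one, hf]
    rfl
  unfold RR
  rw [this, List.foldl_append]
  rfl

variable {N : ℕ}

/-- the words considered -/
def word (x : Fin N → Bool) (y : List (Q0 N → Q0 N → Prop)) : List (Alph N) :=
  Sum.inl x :: y.map Sum.inr

lemma word_length (x : Fin N → Bool) (y : List (Q0 N → Q0 N → Prop)) :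
    (word x y).length = y.length + 1 := by simp [word]

lemma sound (x : Fin N → Bool) (y : List (Q0 N → Q0 N → Prop)) (c : (Q0 N × Bool) × ℕ × ℕ)
    (h : ReflTransGen ((wit N).Step (word x y)) ((wit N).init, 1, 0) c) :
    (c.2.1 = 1 ∧ c.2.2 = 0 ∧ c.1 = (none, true)) ∨
    (1 ≤ c.2.2 ∧ c.2.2 ≤ y.length + 1 ∧ c.1.2 = true ∧ 2 ≤ c.2.1 ∧ c.2.1 ≤ c.2.2 + 1 ∧
      c.1.1 ∈ RR x (y.take (c.2.2 - 1))) ∨
    (2 ≤ c.2.2 ∧ c.2.2 ≤ y.length + 1 ∧ c.1.2 = false ∧ 1 ≤ c.2.1 ∧ c.2.1 < c.2.2 ∧
      ∃ q ∈ RR x (y.take (c.2.2 - 2)), ∃ f, y[c.2.2 - 2]? = some f ∧ f q c.1.1) := by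
  induction h with
  | refl => left; exact ⟨rfl, rfl, rfl⟩
  | @tail b c _ hs ih =>
    obtain ⟨⟨bq, bm⟩, bi, bj⟩ := b
    obtain ⟨⟨cq, cm⟩, ci, cj⟩ := c
    simp only at ih ⊢
    rcases hs with h1 | h1 | h1
    · exact absurd h1.2.1 (by simp [wit])
    · exfalso
      have := h1.2.1
      simp only [wit] at this
      split_ifs at this with h
      · simp only [Finset.mem_singleton, Prod.mk.injEq] at this
        exact absurd this.2 (by simp)
      · simp at this
    · obtain ⟨a, h1, h2, d, h3, h4, h5⟩ := h1
      simp only at h1 h2 h3 h4 h5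
      have hget : (bi = 1 ∧ a = Sum.inl x) ∨
          (2 ≤ bi ∧ ∃ f, y[bi - 2]? = some f ∧ a = Sum.inr f) := by
        rcases Nat.lt_or_ge bi 2 with hb | hb
        · left
          have : bi = 1 := by omega
          subst this
          simp [word] at h2
          exact ⟨rfl, h2.symm⟩
        · right
          refine ⟨hb, ?_⟩
          have h6 : bi - 1 = (bi - 2) + 1 := by omega
          rw [h6] at h2
          simp only [word, List.getElem?_cons_succ, List.getElem?_map] at h2
          cases hh : y[bi - 2]? with
          | none => rw [hh] at h2; simp at h2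
          | some f =>
            rw [hh] at h2
            simp only [Option.map_some, Option.some.injEq] at h2
            exact ⟨f, rfl, h2.symm⟩
      rcases ih with ⟨e1, e2, e3⟩ | ⟨e1, e2, e3, e4, e5, e6⟩ | ⟨e1, e2, e3, e4, e5, q, e6, f, e7, e8⟩
      · -- initial configuration
        subst e1 e2
        simp only [Prod.mk.injEq] at e3
        obtain ⟨rfl, rfl⟩ := e3
        rcases hget with ⟨_, rfl⟩ | ⟨h, _⟩
        · simp only [wit] at h3
          rw [if_neg (by omega)] at h3
          simp only [Finset.mem_singleton, Prod.mk.injEq] at h3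
          obtain ⟨⟨rfl, rfl⟩, rfl⟩ := h3
          right; left
          simp at h4 h5
          subst h4 h5
          refine ⟨le_refl _, by omega, rfl, by omega, by omega, ?_⟩
          simp [RR]
        · omega
      · -- moving right
        subst e3
        rcases hget with ⟨h, _⟩ | ⟨h, f, hf, rfl⟩
        · omega
        · by_cases hij : bi ≤ bj
          · rw [if_pos hij] at h3
            simp only [wit, Finset.mem_singleton, Prod.mk.injEq] at h3
            obtain ⟨⟨rfl, rfl⟩, rfl⟩ := h3
            simp only [if_true] at h4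
            right; left
            have : cj = bj := by omega
            subst this
            exact ⟨e1, e2, rfl, by omega, by omega, e6⟩
          · rw [if_neg hij] at h3
            simp only [wit, Finset.mem_filter, Finset.mem_univ, true_and] at h3
            obtain ⟨h6, rfl, rfl⟩ := h3
            simp only [Bool.false_eq_true, if_false] at h4
            right; right
            have hlt : bi - 2 < y.length := by
              by_contra hcon
              rw [List.getElem?_eq_none (by omega)] at hf
              cases hf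
            have hcj : cj = bi := by omega
            have hbi : bi = bj + 1 := by omega
            refine ⟨by omega, by omega, rfl, by omega, by omega, bq, ?_, f, ?_, h6⟩
            · have : cj - 2 = bj - 1 := by omega
              rw [this]; exact e6
            · rw [hcj]; exact hf
      · -- moving left
        subst e3
        rw [if_pos (by omega)] at h3
        rcases hget with ⟨h, rfl⟩ | ⟨h, f', hf, rfl⟩
        · simp only [wit] at h3
          split_ifs at h3 with hp
          · simp only [Finset.mem_singleton, Prod.mk.injEq] at h3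
            obtain ⟨⟨rfl, rfl⟩, rfl⟩ := h3
            simp only [if_true] at h4
            right; left
            have hcj : cj = bj := by omega
            subst hcj
            refine ⟨by omega, e2, rfl, by omega, by omega, ?_⟩
            have h7 : cj - 1 = (cj - 2) + 1 := by omega
            rw [h7, RR_succ x y (cj - 2) f e7]
            exact ⟨⟨q, e6, e8⟩, hp⟩
          · simp at h3
        · simp only [wit, Finset.mem_singleton, Prod.mk.injEq] at h3
          obtain ⟨⟨rfl, rfl⟩, rfl⟩ := h3
          simp only [Bool.false_eq_true, if_false] at h4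
          right; right
          have hcj : cj = bj := by omega
          subst hcj
          exact ⟨e1, e2, rfl, by omega, by omega, q, e6, f, e7, e8⟩

lemma word_get (x : Fin N → Bool) (y : List (Q0 N → Q0 N → Prop)) (i : ℕ) (hi : 2 ≤ i)
    (f : Q0 N → Q0 N → Prop) (hf : y[i - 2]? = some f) : (word x y)[i - 1]? = some (Sum.inr f) := by
  have h6 : i - 1 = (i - 2) + 1 := by omega
  rw [h6]
  simp [word, List.getElem?_cons_succ, List.getElem?_map, hf]

lemma go_left (x : Fin N → Bool) (y : List (Q0 N → Q0 N → Prop)) (j : ℕ) (hj : j ≤ y.length + 1)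
    (q : Q0 N) (i : ℕ) (hi : i + 1 ≤ j) :
    ReflTransGen ((wit N).Step (word x y)) ((q, false), i + 1, j) ((q, false), 1, j) := by
  induction i with
  | zero => exact ReflTransGen.refl
  | succ i ih =>
    refine ReflTransGen.head ?_ (ih (by omega))
    right; right
    have hlt : i < y.length := by omega
    refine ⟨Sum.inr y[i], by simp, ?_, false, ?_, by simp, by simp; omega⟩
    · exact word_get x y (i + 1 + 1) (by omega) _ (by simp [List.getElem?_eq_getElem hlt])
    · simp only
      rw [if_pos (by omega)]
      simp [wit]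

lemma go_right (x : Fin N → Bool) (y : List (Q0 N → Q0 N → Prop)) (j : ℕ) (hj : j ≤ y.length + 1)
    (q : Q0 N) (i : ℕ) (hi : i + 1 ≤ j) :
    ReflTransGen ((wit N).Step (word x y)) ((q, true), 2, j) ((q, true), i + 2, j) := by
  induction i with
  | zero => exact ReflTransGen.refl
  | succ i ih =>
    refine ReflTransGen.tail (ih (by omega)) ?_
    right; right
    have hlt : i < y.length := by omega
    refine ⟨Sum.inr y[i], by simp, ?_, true, ?_, by simp, by simp; omega⟩
    · exact word_get x y (i + 2) (by omega) _ (by simp [List.getElem?_eq_getElem hlt])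
    · simp only
      rw [if_pos (by omega)]
      simp [wit]

lemma complete (x : Fin N → Bool) (y : List (Q0 N → Q0 N → Prop)) (j : ℕ) (hj : j ≤ y.length) :
    ∀ q ∈ RR x (y.take j),
      ReflTransGen ((wit N).Step (word x y)) ((wit N).init, 1, 0) ((q, true), j + 2, j + 1) := by
  induction j with
  | zero =>
    intro q hq
    simp only [RR, List.take_zero, List.foldl_nil, Set.mem_singleton_iff] at hq
    subst hq
    refine ReflTransGen.single ?_
    right; right
    exact ⟨Sum.inl x, by simp, by simp [word], true, by simp [wit], by simp, by simp⟩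
  | succ j ih =>
    intro q hq
    have hlt : j < y.length := by omega
    rw [RR_succ x y j y[j] (List.getElem?_eq_getElem hlt)] at hq
    obtain ⟨⟨q', hq', hf⟩, hp⟩ := hq
    refine ReflTransGen.trans (ih (by omega) q' hq') ?_
    -- read the new letter
    refine ReflTransGen.head (b := ((q, false), j + 1, j + 2)) ?_ ?_
    · right; right
      refine ⟨Sum.inr y[j], by simp, ?_, false, ?_, by simp, by simp⟩
      · exact word_get x y (j + 2) (by omega) _ (by simp [List.getElem?_eq_getElem hlt])
      · simp only
        rw [if_neg (by omega)]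
        simp [wit, hf]
    refine ReflTransGen.trans (go_left x y (j + 2) (by omega) q j (by omega)) ?_
    refine ReflTransGen.head (b := ((q, true), 2, j + 2)) ?_ ?_
    · right; right
      refine ⟨Sum.inl x, by simp, by simp [word], true, ?_, by simp, by simp⟩
      simp only
      rw [if_pos (by omega)]
      simp [wit, hp]
    exact go_right x y (j + 2) (by omega) q (j + 1) (by omega)

theorem accepts_iff (x : Fin N → Bool) (y : List (Q0 N → Q0 N → Prop)) :
    (wit N).Accepts (word x y) ↔ none ∈ RR x y := by
  constructor
  · rintro ⟨q, i, j, hr, hi, q', hq', hq''⟩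
    rw [word_length] at hi
    have hq : q = (none, true) := by
      simp only [wit] at hq''
      split_ifs at hq'' with h
      · exact h
      · simp at hq''
    rcases sound x y _ hr with ⟨h1, h2, h3⟩ | ⟨h1, h2, h3, h4, h5, h6⟩ | ⟨h1, h2, h3, h4, h5, _⟩
    · simp only at h1; omega
    · simp only at h1 h2 h5 h6
      have : j - 1 = y.length := by omega
      rw [this, List.take_length, hq] at h6
      exact h6
    · simp only at h1 h2 h5
      omega
  · intro h
    have h1 := complete x y y.length (le_refl _) none (by rw [List.take_length]; exact h)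
    exact ⟨_, _, _, h1, by rw [word_length], (none, true), by simp [wit], by simp [wit]⟩

/-! ### The gadgets -/

/-- the letter which sends the test token to the test `j`, `b` -/
def adv (N : ℕ) (j : ℕ) (b : Bool) : Q0 N → Q0 N → Prop
  | none, none => True
  | none, some (Sum.inl (j', b')) => j = 0 ∧ (j' : ℕ) = 0 ∧ b' = b
  | some (Sum.inl (j1, _)), some (Sum.inl (j2, b2)) => (j1 : ℕ) + 1 = j ∧ (j2 : ℕ) = j ∧ b2 = b
  | some (Sum.inr i), some (Sum.inr i') => i = i'
  | _, _ => False

/-- the letter which turns a test token which has passed all tests into the result state `i` -/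
def fin (N : ℕ) (i : Fin N) : Q0 N → Q0 N → Prop
  | none, none => True
  | some (Sum.inl (j1, _)), some (Sum.inr i') => (j1 : ℕ) + 1 = N ∧ i = i'
  | some (Sum.inr i), some (Sum.inr i') => i = i'
  | _, _ => False

/-- a set of frontier states without test tokens -/
def Clean (R : Set (Q0 N)) : Prop := none ∈ R ∧ ∀ p, some (Sum.inl p) ∉ R

/-- the first `k` letters of a gadget -/
def gad (xs : Fin N → Bool) : ℕ → List (Q0 N → Q0 N → Prop)
  | 0 => []
  | k + 1 => gad xs k ++ [if h : k < N then adv N k (xs ⟨k, h⟩) else fun _ _ => False]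

lemma gad_spec (x xs : Fin N → Bool) (R : Set (Q0 N)) (hR : Clean R) (k : ℕ) (hk : k < N) :
    (gad xs (k + 1)).foldl (Post x) R =
      R ∪ {q | q = some (Sum.inl (⟨k, hk⟩, xs ⟨k, hk⟩)) ∧
        ∀ j : Fin N, (j : ℕ) ≤ k → x j = xs j} := by
  induction k with
  | zero =>
    simp only [gad, List.nil_append, List.foldl_cons, List.foldl_nil, hk, dif_pos]
    ext q
    simp only [Post, Set.mem_ofPred_eq, Set.mem_union]
    constructor
    · rintro ⟨⟨q', hq', hf⟩, hp⟩
      rcases q' with _ | ⟨j', b'⟩ | i'
      · rcases q with _ | ⟨j, b⟩ | i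
        · left; exact hR.1
        · right
          simp only [adv] at hf
          obtain ⟨_, h1, rfl⟩ := hf
          have : j = ⟨0, hk⟩ := Fin.ext h1
          subst this
          refine ⟨rfl, fun j hj => ?_⟩
          have : j = ⟨0, hk⟩ := Fin.ext (by simpa using hj)
          subst this
          exact hp
        · exact absurd hf (by simp [adv])
      · exact absurd hq' (hR.2 _)
      · rcases q with _ | ⟨j, b⟩ | i
        · exact absurd hf (by simp [adv])
        · exact absurd hf (by simp [adv])
        · simp only [adv] at hf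
          subst hf
          left; exact hq'
    · rintro (hq | ⟨rfl, hx⟩)
      · rcases q with _ | ⟨j, b⟩ | i
        · exact ⟨⟨none, hR.1, by simp [adv]⟩, by simp [Pass]⟩
        · exact absurd hq (hR.2 _)
        · exact ⟨⟨_, hq, by simp [adv]⟩, by simp [Pass]⟩
      · refine ⟨⟨none, hR.1, by simp [adv]⟩, ?_⟩
        simp only [Pass]
        exact hx _ (le_refl _)
  | succ k ih =>
    have ih := ih (by omega)
    rw [gad, List.foldl_append, ih, dif_pos hk]
    simp only [List.foldl_cons, List.foldl_nil]
    ext q
    simp only [Post, Set.mem_ofPred_eq, Set.mem_union]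
    constructor
    · rintro ⟨⟨q', hq' | ⟨rfl, hx⟩, hf⟩, hp⟩
      · rcases q' with _ | ⟨j', b'⟩ | i'
        · rcases q with _ | ⟨j, b⟩ | i
          · left; exact hR.1
          · simp only [adv] at hf
            omega
          · exact absurd hf (by simp [adv])
        · exact absurd hq' (hR.2 _)
        · rcases q with _ | ⟨j, b⟩ | i
          · exact absurd hf (by simp [adv])
          · exact absurd hf (by simp [adv])
          · simp only [adv] at hf
            subst hf
            left; exact hq'
      · rcases q with _ | ⟨j, b⟩ | i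
        · exact absurd hf (by simp [adv])
        · simp only [adv] at hf
          obtain ⟨h1, h2, rfl⟩ := hf
          have : j = ⟨k + 1, hk⟩ := Fin.ext h2
          subst this
          right
          refine ⟨rfl, fun j hj => ?_⟩
          rcases Nat.lt_or_ge (j : ℕ) (k + 1) with h | h
          · exact hx j (by omega)
          · have : j = ⟨k + 1, hk⟩ := Fin.ext (by simp; omega)
            subst this
            exact hp
        · exact absurd hf (by simp [adv])
    · rintro (hq | ⟨rfl, hx⟩)
      · rcases q with _ | ⟨j, b⟩ | i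
        · exact ⟨⟨none, Or.inl hR.1, by simp [adv]⟩, by simp [Pass]⟩
        · exact absurd hq (hR.2 _)
        · exact ⟨⟨_, Or.inl hq, by simp [adv]⟩, by simp [Pass]⟩
      · refine ⟨⟨_, Or.inr ⟨rfl, fun j hj => hx j (by omega)⟩, by simp [adv]⟩, ?_⟩
        simp only [Pass]
        exact hx _ (le_refl _)

/-- the gadget which adds the result state `i` if and only if the bit vector is `xs` -/
def gadget (p : (Fin N → Bool) × Fin N) : List (Q0 N → Q0 N → Prop) := gad p.1 N ++ [fin N p.2]

lemma gadget_spec (x : Fin N → Bool) (p : (Fin N → Bool) × Fin N) (R : Set (Q0 N))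
    (hR : Clean R) :
    (gadget p).foldl (Post x) R = R ∪ {q | q = some (Sum.inr p.2) ∧ x = p.1} := by
  obtain ⟨xs, i⟩ := p
  have hN : 0 < N := i.pos
  obtain ⟨k, rfl⟩ : ∃ k, N = k + 1 := ⟨N - 1, by omega⟩
  simp only [gadget]
  rw [List.foldl_append, gad_spec x xs R hR k (by omega)]
  simp only [List.foldl_cons, List.foldl_nil]
  ext q
  simp only [Post, Set.mem_ofPred_eq, Set.mem_union]
  constructor
  · rintro ⟨⟨q', hq' | ⟨rfl, hx⟩, hf⟩, hp⟩
    · rcases q' with _ | ⟨j', b'⟩ | i'
      · rcases q with _ | ⟨j, b⟩ | i
        · left; exact hR.1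
        · exact absurd hf (by simp [fin])
        · exact absurd hf (by simp [fin])
      · exact absurd hq' (hR.2 _)
      · rcases q with _ | ⟨j, b⟩ | i
        · exact absurd hf (by simp [fin])
        · exact absurd hf (by simp [fin])
        · simp only [fin] at hf
          subst hf
          left; exact hq'
    · rcases q with _ | ⟨j, b⟩ | i
      · exact absurd hf (by simp [fin])
      · exact absurd hf (by simp [fin])
      · simp only [fin] at hf
        obtain ⟨_, rfl⟩ := hf
        right
        exact ⟨rfl, funext fun j => hx j (by omega)⟩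
  · rintro (hq | ⟨rfl, rfl⟩)
    · rcases q with _ | ⟨j, b⟩ | i
      · exact ⟨⟨none, Or.inl hR.1, by simp [fin]⟩, by simp [Pass]⟩
      · exact absurd hq (hR.2 _)
      · exact ⟨⟨_, Or.inl hq, by simp [fin]⟩, by simp [Pass]⟩
    · exact ⟨⟨_, Or.inr ⟨rfl, fun j hj => rfl⟩, by simp [fin]⟩, by simp [Pass]⟩

lemma clean_union {R : Set (Q0 N)} (hR : Clean R) (i : Fin N) (P : Prop) :
    Clean (R ∪ {q | q = some (Sum.inr i) ∧ P}) := by
  refine ⟨Or.inl hR.1, ?_⟩
  rintro p (h | ⟨h, _⟩)
  · exact hR.2 _ h
  · simp at h

lemma list_spec (x : Fin N → Bool) (l : List ((Fin N → Bool) × Fin N)) :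
    ∀ R : Set (Q0 N), Clean R →
    (l.flatMap gadget).foldl (Post x) R = R ∪ {q | ∃ i, q = some (Sum.inr i) ∧ (x, i) ∈ l} := by
  induction l with
  | nil => intro R _; simp
  | cons p l ih =>
    intro R hR
    rw [List.flatMap_cons, List.foldl_append, gadget_spec x p R hR, ih _ (clean_union hR _ _)]
    ext q
    simp only [Set.mem_union, Set.mem_ofPred_eq, List.mem_cons]
    constructor
    · rintro ((h | ⟨h1, h2⟩) | ⟨i, h1, h2⟩)
      · exact Or.inl h
      · exact Or.inr ⟨p.2, h1, Or.inl (by rw [h2])⟩
      · exact Or.inr ⟨i, h1, Or.inr h2⟩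
    · rintro (h | ⟨i, h1, h2 | h2⟩)
      · exact Or.inl (Or.inl h)
      · left; right
        rw [← h2]
        exact ⟨h1, rfl⟩
      · exact Or.inr ⟨i, h1, h2⟩

/-- the word realising the map `T` from bit vectors to subsets of `Fin N` -/
noncomputable def yT (T : (Fin N → Bool) → Finset (Fin N)) : List (Q0 N → Q0 N → Prop) :=
  (fun q q' => q = q') ::
    ((Finset.univ : Finset ((Fin N → Bool) × Fin N)).toList.filter
      (fun p => decide (p.2 ∈ T p.1))).flatMap gadget

/-- the last letter -/
def zl (i : Fin N) : Q0 N → Q0 N → Prop := fun q q' => q = some (Sum.inr i) ∧ q' = none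

theorem yT_spec (T : (Fin N → Bool) → Finset (Fin N)) (x : Fin N → Bool) (i : Fin N) :
    (wit N).Accepts (word x (yT T ++ [zl i])) ↔ i ∈ T x := by
  rw [accepts_iff]
  unfold RR
  rw [List.foldl_append]
  have h0 : (yT T).foldl (Post x) {none} =
      {none} ∪ {q | ∃ i, q = some (Sum.inr i) ∧ i ∈ T x} := by
    unfold yT
    rw [List.foldl_cons]
    have h1 : Post x ({none} : Set (Q0 N)) (fun q q' => q = q') = {none} := by
      ext q
      simp only [Post, Set.mem_singleton_iff, exists_eq_left, Set.mem_ofPred_eq]
      constructor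
      · rintro ⟨h, _⟩; exact h.symm
      · rintro rfl; exact ⟨rfl, by simp [Pass]⟩
    have hc : Clean ({none} : Set (Q0 N)) := ⟨Set.mem_singleton _, fun p h => by simp at h⟩
    rw [h1, list_spec x _ _ hc]
    congr 1
    ext q
    simp
  rw [h0]
  simp only [List.foldl_cons, List.foldl_nil, Post, zl, Set.mem_ofPred_eq, and_true]
  constructor
  · rintro ⟨⟨q, h | ⟨j, h, hj⟩, hq⟩, _⟩
    · rw [Set.mem_singleton_iff.1 h] at hq
      simp at hq
    · rw [h] at hq
      simp only [Option.some.injEq, Sum.inr.injEq] at hq
      rwa [hq] at hj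
  · intro h
    exact ⟨⟨some (Sum.inr i), Or.inr ⟨i, rfl, h⟩, rfl⟩, by simp [Pass]⟩

end Pool.Agent.H182R3.AM
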